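import Pool.Agent.Lib.MP_4530c2_lc.Final

set_option autoImplicit false

/-!
# Bradley-Terry dimension is easily L1-testable

All definitions are in `Pool/Agent/Lib/MP_4530c2_lc/Defs.lean`.
-/

namespace Pool.Agent.Results.MP_4530c2_lc.BTDimTestable

open Pool.Agent.Lib.MP4530.BTDim

/-- Easily `L_1`-testable properties are `L_1`-testable: the definitions are related as in the
problem. -/
theorem easily_implies_testable {Pr : Property} (h : EasilyL1Testable Pr) : L1Testable Pr := by
  obtain ⟨Q, hQ⟩ := h
  intro ε hε
  refine ⟨Q.eval (1 / ε), fun n => ?_⟩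
  obtain ⟨A, h1, h2, _⟩ := hQ ε hε n
  exact ⟨A, h1, h2⟩

/-- For every fixed `d ≥ 2`, the property of having Bradley-Terry dimension (exactly) `d` is
easily `L_1`-testable, and therefore `L_1`-testable. -/
theorem result (d : ℕ) (hd : 2 ≤ d) : EasilyL1Testable (HasBTDim d) :=
  main d hd

/-- The plain form asked for in the question. -/
theorem testable (d : ℕ) (hd : 2 ≤ d) : L1Testable (HasBTDim d) :=
  easily_implies_testable (result d hd)

end Pool.Agent.Results.MP_4530c2_lc.BTDimTestable
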